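import Pool.Agent.Q82.QD.Stm

/-!
Project QD (helper82), lemma job QD-RAT2.
-/

set_option autoImplicit false

open MeasureTheory Filter Topology Real
open Pool.Agent.Q82.QC (E)

namespace Pool.Agent.Q217.QD

open Pool.Agent.Q82.QD

theorem exp_W (F : ℝ → ℝ) (a N : ℝ) (hN : 0 < N) (x : E) :
    B F N x = 6 * Real.exp (4 * W F a N x) *
      Real.exp (4 * bet a N * (PP x - 4 * ‖x - x0‖ ^ 2)) := by
  have hL : (0 : ℝ) < N ^ 5 := by positivity
  have h1 : Real.exp (4 * Real.log (N ^ 5)) = (N ^ 5) ^ 4 := by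
    have : (4 : ℝ) * Real.log (N ^ 5) = Real.log ((N ^ 5) ^ 4) := by
      rw [Real.log_pow (N ^ 5) 4]
      norm_num
    rw [this, Real.exp_log (by positivity)]
  rw [mul_assoc, ← Real.exp_add]
  have h2 : 4 * W F a N x + 4 * bet a N * (PP x - 4 * ‖x - x0‖ ^ 2) =
      4 * F ((N ^ 5) ^ 2 * ‖x - x0‖ ^ 2) + 4 * Real.log (N ^ 5) := by
    unfold W bet
    ring
  rw [h2, Real.exp_add, h1]
  unfold B
  ring

theorem rat2 (h1 : S_PP) : S_RAT2 := by
  intro F a ha η hη
  set δ : ℝ := min 1 (η / 2) with hδ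
  have hδ0 : 0 < δ := lt_min one_pos (by linarith)
  filter_upwards [eventually_ge_atTop (max 2 (40 * a / δ))] with N hN x hx
  have hN2 : 2 ≤ N := (le_max_left _ _).trans hN
  have hNa : 40 * a / δ ≤ N := (le_max_right _ _).trans hN
  have hN0 : 0 < N := by linarith
  have hr1 : ‖x - x0‖ ≤ 1 := by
    refine hx.trans ?_
    rw [div_le_one (by positivity)]
    nlinarith [pow_le_pow_left₀ (by norm_num : (0 : ℝ) ≤ 2) hN2 4]
  have hP := h1.2.2.2.2 x hr1
  have ht : |4 * bet a N * (PP x - 4 * ‖x - x0‖ ^ 2)| ≤ δ := by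
    have hb : 4 * bet a N = a * N ^ 10 := by
      unfold bet
      ring
    rw [hb, abs_mul, abs_of_pos (by positivity : 0 < a * N ^ 10)]
    calc a * N ^ 10 * |PP x - 4 * ‖x - x0‖ ^ 2| ≤ a * N ^ 10 * (5 * ‖x - x0‖ ^ 3) :=
          mul_le_mul_of_nonneg_left hP (by positivity)
      _ ≤ a * N ^ 10 * (5 * (2 / N ^ 4) ^ 3) := by
          apply mul_le_mul_of_nonneg_left _ (by positivity)
          apply mul_le_mul_of_nonneg_left _ (by norm_num)
          exact pow_le_pow_left₀ (norm_nonneg _) hx 3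
      _ = 40 * a / N ^ 2 := by
          field_simp
          ring
      _ ≤ 40 * a / N := by
          apply div_le_div_of_nonneg_left (by positivity) hN0
          nlinarith
      _ ≤ δ := by
          rw [div_le_iff₀ hδ0] at hNa
          rw [div_le_iff₀ hN0]
          linarith
  have hexp := Real.abs_exp_sub_one_le (ht.trans (min_le_left _ _))
  rw [exp_W F a N hN0 x]
  set Z := 6 * Real.exp (4 * W F a N x) with hZ
  have hZ0 : 0 < Z := by positivity
  set t := 4 * bet a N * (PP x - 4 * ‖x - x0‖ ^ 2) with ht'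
  have h3 : Z * Real.exp t - Z = Z * (Real.exp t - 1) := by ring
  rw [h3, abs_mul, abs_of_pos hZ0, mul_comm]
  apply mul_le_mul_of_nonneg_right _ hZ0.le
  have h4 : δ ≤ η / 2 := min_le_right _ _
  linarith

end Pool.Agent.Q217.QD
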